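import Mathlib
import Pool.Agent.Helper53.GF.PellMain

/-!
# Large divisors of the numbers `64 b ^ 2 + 9 = 8 d ^ 2 + 1` have no sparse multiples

Let `d m + b m √8 = (3 + √8) ^ m` and `M m = 8 (d m) ^ 2 + 1 = 64 (b m) ^ 2 + 9`. For even `m > 0` the number
`M m > 9` is divisible by `9`. Let `m` be odd, let `B i` be the Pell numbers and `α = 1 + √2`.

* If `z` is a sum of `k` terms `c_i B_i` with `i ≤ 4 D m` and `|c_i| ≤ H`, and no multiple of `M m`, then the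
  greatest common divisor of `z` and `M m` is at most `((2 ^ (2 D + 2) k H) ^ 2 α) ^ (N ^ k) α ^ (8 m / N)` for
  all `N ≥ 1`.
* So for all `δ > 0`, `H` and `D` there is `c > 0` such that for all large odd `m` and every divisor
  `x ≥ α ^ (4 δ m)` of `M m`, no multiple of `x`, except those of `M m`, is a sum of at most `c log m` terms
  `c_i B_i` with `i ≤ 4 D m` and `|c_i| ≤ H`.
* In particular this holds for the larger factor in every factorization `M m = x y`.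

Proof. `M m` is the norm of `2 ω ^ (4 m) + 1`, `ω = 1 + √2`. Modulo the ideal generated by `x` and this number
`2 ω ^ (4 m) = -1`. By Dirichlet's theorem the exponents `± i` are near to the multiples of `4 m / q` for some
`q ≤ N ^ k`, and the determinant of the multiplication by `∑ c_i (T ^ i - (- T) ^ (- i))` on the module generated
by a formal `q`-th root of `- 2 T ^ (4 m) = 1` is, up to a power of `2`, a polynomial of small degree and height
in `T`. Its value at `ω` is in the ideal, has a small norm, and is not zero since `X ^ q + 1 / (2 ω ^ (4 m))` is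
irreducible over `ℚ(√2)` for every `q`.
-/

set_option autoImplicit false

namespace Pool.Agent.Results.MP_f53aaa_nt.SparseMultiples

/-- `(d m, b m)` with `d m + b m √8 = (3 + √8) ^ m` -/
def db : ℕ → ℤ × ℤ
  | 0 => (1, 0)
  | (m + 1) => (3 * (db m).1 + 8 * (db m).2, (db m).1 + 3 * (db m).2)

/-- the solutions `d` of the Pell equation `d ^ 2 - 8 b ^ 2 = 1` -/
def d (m : ℕ) : ℤ := (db m).1

/-- the solutions `b` of the Pell equation `d ^ 2 - 8 b ^ 2 = 1` -/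
def b (m : ℕ) : ℤ := (db m).2

/-- the numbers of the question -/
def M (m : ℕ) : ℤ := 8 * d m ^ 2 + 1

/-- the Pell numbers -/
def B : ℕ → ℤ
  | 0 => 0
  | 1 => 1
  | (n + 2) => 2 * B (n + 1) + B n

/-- `z` is a sum of at most `k` terms `c_i B_i` with different `i ≤ L` and integers `c_i` with `|c_i| ≤ H` -/
def FewPell (L k H : ℕ) (z : ℤ) : Prop :=
  ∃ (s : Finset ℕ) (c : ℕ → ℤ), s.card ≤ k ∧ (∀ i ∈ s, i ≤ L ∧ |c i| ≤ H) ∧ z = ∑ i ∈ s, c i * B i

open Pool.Agent.Helper53.GE Pool.Agent.Helper53.GF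

lemma d_succ (m : ℕ) : d (m + 1) = 3 * d m + 8 * b m := rfl

lemma b_succ (m : ℕ) : b (m + 1) = d m + 3 * b m := rfl

lemma pell : ∀ m : ℕ, d m ^ 2 - 8 * b m ^ 2 = 1
  | 0 => by simp [d, b, db]
  | (m + 1) => by
    have h := pell m
    rw [d_succ, b_succ]
    linear_combination h

lemma powers : ∀ m : ℕ, (3 + Real.sqrt 8) ^ m = d m + b m * Real.sqrt 8
  | 0 => by simp [d, b, db]
  | (m + 1) => by
    have h1 := powers m
    have h3 : Real.sqrt 8 ^ 2 = 8 := Real.sq_sqrt (by norm_num)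
    rw [pow_succ, h1, d_succ, b_succ]
    push_cast
    linear_combination (b m : ℝ) * h3

lemma LU_B : ∀ n : ℕ, LU 2 n = B n
  | 0 => rfl
  | 1 => rfl
  | (n + 2) => by
    have h1 := LU_B n
    have h2 := LU_B (n + 1)
    simp only [LU, B]
    rw [h1, h2]

lemma step : ∀ n : ℕ, LV 2 (n + 1) = LV 2 n + 4 * LU 2 n ∧ 2 * LU 2 (n + 1) = LV 2 n + 2 * LU 2 n
  | 0 => by simp [LV, LU]
  | (n + 1) => by
    obtain ⟨h1, h2⟩ := step n
    have e1 : LV 2 (n + 1 + 1) = 2 * LV 2 (n + 1) + LV 2 n := rfl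
    have e2 : LU 2 (n + 1 + 1) = 2 * LU 2 (n + 1) + LU 2 n := rfl
    constructor
    · rw [e1]; linarith
    · rw [e2]; linarith

lemma double : ∀ m : ℕ, LV 2 (2 * m) = 2 * d m ∧ LU 2 (2 * m) = 2 * b m
  | 0 => by simp [LV, LU, d, b, db]
  | (m + 1) => by
    obtain ⟨h1, h2⟩ := double m
    obtain ⟨s1, s2⟩ := step (2 * m)
    obtain ⟨s3, s4⟩ := step (2 * m + 1)
    have e : 2 * (m + 1) = 2 * m + 1 + 1 := by ring
    rw [e, d_succ, b_succ]
    constructor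
    · rw [s3, s1]; linarith
    · linarith

lemma M_eq (m : ℕ) : M m = MM m := by
  have h1 := LV_eq (w_add 2) (w_mul 2) (2 * m)
  have h2 := LV_eq (w_add 2) (w_mul 2) (4 * m)
  have hww : (QuadraticAlgebra.omega : OO 2) ^ (2 * m) * (wc 2) ^ (2 * m) = 1 := by
    rw [← mul_pow, w_mul, pow_mul]; norm_num
  have h3 : ((LV 2 (4 * m) : ℤ) : OO 2) = (((LV 2 (2 * m)) ^ 2 - 2 : ℤ) : OO 2) := by
    push_cast
    rw [h2, h1]
    have e1 : (QuadraticAlgebra.omega : OO 2) ^ (4 * m) = ((QuadraticAlgebra.omega : OO 2) ^ (2 * m)) ^ 2 := by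
      rw [← pow_mul]; congr 1; ring
    have e2 : (wc 2) ^ (4 * m) = ((wc 2) ^ (2 * m)) ^ 2 := by
      rw [← pow_mul]; congr 1; ring
    rw [e1, e2]
    linear_combination -2 * hww
  have h4 : LV 2 (4 * m) = (LV 2 (2 * m)) ^ 2 - 2 := by exact_mod_cast h3
  unfold M MM
  rw [h4, (double m).1]
  ring

lemma three_dvd : ∀ j : ℕ, (3 : ℤ) ∣ d (2 * j + 1) ∧ (3 : ℤ) ∣ b (2 * j)
  | 0 => by
    constructor
    · exact ⟨1, by simp [d, db]⟩
    · exact ⟨0, by simp [b, db]⟩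
  | (j + 1) => by
    obtain ⟨⟨u, hu⟩, ⟨v, hv⟩⟩ := three_dvd j
    have e1 : 2 * (j + 1) + 1 = 2 * j + 1 + 1 + 1 := by ring
    have e2 : 2 * (j + 1) = 2 * j + 1 + 1 := by ring
    constructor
    · rw [e1, d_succ (2 * j + 1 + 1), b_succ (2 * j + 1), hu]
      exact ⟨d (2 * j + 1 + 1) + 8 * (u + b (2 * j + 1)), by ring⟩
    · rw [e2, b_succ (2 * j + 1), d_succ (2 * j), hv]
      exact ⟨d (2 * j) + 8 * v + b (2 * j + 1), by ring⟩

lemma nine_dvd {m : ℕ} (hm : Even m) : (9 : ℤ) ∣ M m := by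
  obtain ⟨j, hj⟩ := hm
  have hj' : m = 2 * j := by omega
  obtain ⟨v, hv⟩ := (three_dvd j).2
  rw [← hj'] at hv
  have h := pell m
  refine ⟨64 * v ^ 2 + 1, ?_⟩
  unfold M
  rw [hv] at h
  linear_combination 8 * h

lemma cop {m : ℕ} (hm : Odd m) : IsCoprime (MM m) 3 := by
  obtain ⟨j, hj⟩ := hm
  obtain ⟨u, hu⟩ := (three_dvd j).1
  rw [← hj] at hu
  rw [← M_eq]
  refine ⟨1, -(24 * u ^ 2), ?_⟩
  unfold M
  rw [hu]
  ring

lemma al_two : al 2 = 1 + Real.sqrt 2 := by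
  unfold al
  have h : Real.sqrt (((2 : ℤ) : ℝ) ^ 2 + 4) = 2 * Real.sqrt 2 := by
    rw [Real.sqrt_eq_iff_mul_self_eq (by positivity) (by positivity)]
    have h3 : Real.sqrt 2 * Real.sqrt 2 = 2 := Real.mul_self_sqrt (by norm_num)
    push_cast
    linear_combination -4 * h3
  rw [h]
  push_cast
  ring

lemma sum_eq (s : Finset ℕ) (c : ℕ → ℤ) : ∑ i ∈ s, c i * LU 2 i = ∑ i ∈ s, c i * B i :=
  Finset.sum_congr rfl (fun i _ => by rw [LU_B])

theorem asym (H D : ℕ) {δ : ℝ} (hδ : 0 < δ) :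
    ∃ c : ℝ, 0 < c ∧ ∃ m₀ : ℕ, ∀ m : ℕ, m₀ ≤ m → Odd m → ∀ (k : ℕ) (x z : ℤ), x ∣ M m →
      (1 + Real.sqrt 2) ^ (δ * (4 * m : ℕ)) ≤ |(x : ℝ)| → x ∣ z → ¬ M m ∣ z →
      FewPell (D * (4 * m)) k H z → c * Real.log m < k := by
  obtain ⟨c, hc, m₀, h⟩ := M_asym H D hδ
  refine ⟨c, hc, m₀, ?_⟩
  intro m hm hodd k x z hx hxδ hxz hnot hz
  obtain ⟨s, e, hs, he, rfl⟩ := hz
  rw [← al_two] at hxδ
  rw [M_eq] at hx hnot
  rw [← sum_eq] at hxz hnot
  exact h m hm (cop hodd) k x s e hs (fun i hi => (he i hi).2) (fun i hi => (he i hi).1) hx hxδ hxz hnot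

theorem result :
    -- the sequences
    (∀ m : ℕ, (3 + Real.sqrt 8) ^ m = d m + b m * Real.sqrt 8 ∧ M m = 64 * b m ^ 2 + 9) ∧
    (∀ m : ℕ, Even m → (9 : ℤ) ∣ M m) ∧
    -- common divisors with sparse integers
    (∀ (m k H N D : ℕ) (z : ℤ), Odd m → 1 ≤ N → FewPell (D * (4 * m)) k H z → ¬ M m ∣ z →
      (Int.gcd z (M m) : ℝ) ≤
        (((2 * k * (H * 2 ^ (2 * D + 1)) : ℕ) : ℝ) ^ 2 * (1 + Real.sqrt 2)) ^ (N ^ k) *
          (1 + Real.sqrt 2) ^ (2 * (4 * m) / N)) ∧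
    -- multiples of large divisors
    (∀ (H D : ℕ) (δ : ℝ), 0 < δ → ∃ c : ℝ, 0 < c ∧ ∃ m₀ : ℕ, ∀ m : ℕ, m₀ ≤ m → Odd m →
      ∀ (k : ℕ) (x z : ℤ), x ∣ M m → (1 + Real.sqrt 2) ^ (δ * (4 * m : ℕ)) ≤ |(x : ℝ)| → x ∣ z →
      ¬ M m ∣ z → FewPell (D * (4 * m)) k H z → c * Real.log m < k) ∧
    -- factorizations
    (∀ H D : ℕ, ∃ c : ℝ, 0 < c ∧ ∃ m₀ : ℕ, ∀ m : ℕ, m₀ ≤ m → Odd m → ∀ x y : ℤ, 1 < y → y ≤ x →
      x * y = M m → ∀ (k : ℕ) (z : ℤ), x ∣ z → ¬ M m ∣ z → FewPell (D * (4 * m)) k H z →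
      c * Real.log m < k) := by
  refine ⟨?_, fun m hm => nine_dvd hm, ?_, fun H D δ hδ => asym H D hδ, ?_⟩
  · intro m
    refine ⟨powers m, ?_⟩
    have h := pell m
    unfold M
    linear_combination 8 * h
  · intro m k H N D z hm hN hz hnot
    obtain ⟨s, c, hs, hc, hzs⟩ := hz
    have h := M_main (m := m) (k := k) (H := H) (N := N) (D := D) hm.pos hN s c hs
      (fun i hi => (hc i hi).2) (fun i hi => (hc i hi).1) (x := (Int.gcd z (M m) : ℤ)) (cop hm)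
      (by rw [← M_eq]; exact Int.gcd_dvd_right _ _)
      (by rw [sum_eq, ← hzs]; exact Int.gcd_dvd_left _ _)
    rw [sum_eq, ← hzs, ← M_eq, al_two] at h
    rcases h with h | h
    · exact absurd h hnot
    · rw [Int.cast_natCast, Nat.abs_cast] at h
      exact h
  · intro H D
    obtain ⟨c, hc, m₀, h⟩ := asym H D (by norm_num : (0 : ℝ) < 1 / 4)
    refine ⟨c, hc, max m₀ 2, ?_⟩
    intro m hm0 hm x y hy hyx hxy k z hxz hnot hz
    have hm2 : 2 ≤ m := le_trans (le_max_right _ _) hm0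
    refine h m (le_trans (le_max_left _ _) hm0) hm k x z ⟨y, hxy.symm⟩ ?_ hxz hnot hz
    rw [← al_two]
    refine factor_large (P := 2) (by norm_num) (n := 4 * m) (by omega) (M := M m) ?_ hy hyx hxy
    have hal := al_gt (P := 2) (by norm_num)
    have h0 : al 2 ^ (4 * m - 3) ≤ al 2 ^ (4 * m - 2) := pow_le_pow_right₀ hal.le (by omega)
    have h1 := LV_large (P := 2) (by norm_num) (n := 4 * m) (by omega)
    have h2 : (0 : ℝ) < al 2 ^ (4 * m - 2) := by positivity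
    rw [M_eq]
    unfold MM
    push_cast
    linarith

end Pool.Agent.Results.MP_f53aaa_nt.SparseMultiples
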